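import Pool.Agent.K6.H86.AmnParB

/-!
# The Alperin–McKay–Navarro conjecture for odd primes: parities decide the part of odd order

`O` is a valuation subring of `ℂ` whose maximal ideal contains the odd prime `p`; it defines the
`p`-blocks of finite groups. The group `H_B` acts on the `|G|`-th roots of unity as a finite abelian
group; `HOdd p X` consists of the elements of `H_B` of odd order in this group. It contains the
identity, so that an equivariant bijection implies the Alperin–McKay equality, and all automorphisms
of `p`-power order.

Proof. Let `B` be a block of `G` with defect group `D ≠ 1` and `Δ ≤ H_B` a subgroup which acts as a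
group of odd order. The numbers `x_j` of the `Δ`-fixed characters of height zero of the iterated
wreath products `B_j = B_{j-1} ≀ C₂` satisfy `2 x_{j+1} = x_j² + 3 x_j` (no character of `B_j` has
an even number of conjugates under `Δ`), and the same holds for the Brauer correspondents; therefore
`x_0 = x'_0` follows, if `x_j` and `x'_j` have the same parity for all `j` with
`2^j ≤ max(|Irr₀(B)|, |Irr₀(b)|)`. Here `Δ` is lifted to a subgroup of `H_{B_j}`. By the starting
result `GaloisStableCyclic`, `p x_j^n` is the difference of the numbers of the `L`-fixed characters
of height zero of two Galois-stable blocks, where `H / L` is a cyclic `p`-group. In a Galois-stable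
block the `L`-fixed characters with an even number of Galois conjugates come in even number.
Conversely, an `L`-set and its set of fixed points under the part of `L` of odd order have the same
number of elements modulo two. Equal numbers of fixed points for all subgroups give an equivariant
bijection.
-/

set_option autoImplicit false

namespace Pool.Agent.Results.MP_7f1e7e_al.ParityDecidesOddPart

open Pool.Agent.Q259.BW Pool.Agent.Q288.MB Pool.Agent.N19.RB

/-- The group of odd order in `H_B`: the automorphisms `τ ∈ H` with `τ(B) = B` such that some odd
power of `τ` fixes all `|G|`-th roots of unity. -/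
def HOdd (p : ℕ) (X : Dat) : Set (ℂ ≃+* ℂ) :=
  {τ | (τ ∈ HG p X.G ∧ gal τ X.B = X.B) ∧
    ∃ k : ℕ, Odd k ∧ ∀ ξ : ℂ, ξ ^ Nat.card X.G = 1 → (τ ^ k) ξ = ξ}

/-- **Parity decides the part of odd order.** Let `p` be an odd prime and `C` a class of groups
closed under isomorphisms, finite powers and direct products with elementary abelian `p`-groups. The
following are equivalent.
(a) For all `p`-blocks `B` of finite groups with defect groups in `C`, with Brauer correspondent `b`,
there is a bijection `Irr₀(B) → Irr₀(b)` which commutes with all elements of `H_B` of odd order.
(b) For all `p`-blocks `B` of finite groups with defect groups in `C` which are equal to all their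
Galois conjugates, and for all subgroups `L ≤ H` such that `H / L` is a cyclic `p`-group, the number
of the characters in `Irr₀(B)` which are fixed by `L` and have an odd number of Galois conjugates
has the same parity as the corresponding number for `Irr₀(b)`. -/
theorem result (p : ℕ) [Fact p.Prime] (hp2 : p ≠ 2) (O : ValuationSubring ℂ)
    (hpO : (p : ℂ) ∈ O.nonunits) (C : (D : Type) → Group D → Prop) (hC : ElClosed p C) :
    (∀ X : Dat, X.IsBrauer p O → C X.D inferInstance →
      EquivBij (HOdd p X) (X.ht0 p) (X.ht0' p)) ↔
    ∀ X : Dat, X.IsBrauer p O → C X.D inferInstance → (∀ σ : ℂ ≃+* ℂ, gal σ X.B = X.B) →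
      ∀ L : Subgroup (ℂ ≃+* ℂ), PIndex p X.G L →
        Nat.card {χ // χ ∈ Fx (L : Set (ℂ ≃+* ℂ)) (X.ht0 p) ∧ Odd (numCh χ)} ≡
          Nat.card {χ // χ ∈ Fx (L : Set (ℂ ≃+* ℂ)) (X.ht0' p) ∧ Odd (numCh χ)} [MOD 2] :=
  Pool.Agent.K6.H86.AP.main2 hp2 hpO hC

end Pool.Agent.Results.MP_7f1e7e_al.ParityDecidesOddPart
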