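import Pool.Agent.K6.H86.AmnQG

/-!
# The part of the Alperin–McKay–Navarro conjecture of order prime to `q` is a congruence modulo `q`

`O` is a valuation subring of `ℂ` whose maximal ideal contains the prime `p` (`p = 2` is allowed); it
defines the `p`-blocks of finite groups.

Proof. Let `B` be a block of `G` with defect group `D ≠ 1` and Brauer correspondent `b`, and let `Δ`
be a subgroup of `H_B` which acts on `Irr₀(B)` and `Irr₀(b)` with order prime to the prime `q ≠ p`.
The characters of `G ≀ C_q` above products of characters in `B` form a block `B₁` with defect group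
`D^q`, its Brauer correspondent is obtained from `b` in the same way, and the numbers `x`, `x₁` of
`Δ`-fixed characters of height zero satisfy `q x₁ = x^q - x + q c x`, where `c` is the number of
`Δ`-fixed characters of `C_q`; `Δ` acts again with order prime to `q`. If the numbers for `B` and `b`
are congruent modulo `q^a`, and also those for `B₁` and `b₁`, then those for `B` and `b` are
congruent modulo `q^{a+1}`. Here `Δ` is lifted to a subgroup of the group `H` of the iterated wreath
product. Equal numbers of fixed points for all subgroups give an equivariant bijection.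
-/

set_option autoImplicit false

namespace Pool.Agent.Results.MP_7f1e7e_al.PrimeToQPart

open Pool.Agent.Q259.BW Pool.Agent.Q288.MB Pool.Agent.N19.RB

/-- The automorphisms in `S` act on `A` with order prime to `q`: for all `σ ∈ S` there is a number
`m` prime to `q` such that `σ ^ m` fixes all characters in `A`. -/
def PrimeTo (q : ℕ) (S : Set (ℂ ≃+* ℂ)) {H : Type} (A : Set (H → ℂ)) : Prop :=
  ∀ σ ∈ S, ∃ m : ℕ, ¬ q ∣ m ∧ ∀ χ ∈ A, ∀ g, (σ ^ m) (χ g) = χ g

/-- The automorphisms in `H_B` which act on `Irr₀(B)` and on `Irr₀(b)` with order prime to `q`. -/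
def HQ (p q : ℕ) (X : Dat) : Set (ℂ ≃+* ℂ) :=
  {τ | (τ ∈ HG p X.G ∧ gal τ X.B = X.B) ∧ ∃ m : ℕ, ¬ q ∣ m ∧
    (∀ χ ∈ X.ht0 p, ∀ g, (τ ^ m) (χ g) = χ g) ∧ ∀ χ ∈ X.ht0' p, ∀ g, (τ ^ m) (χ g) = χ g}

/-- **The part of order prime to `q`.** Let `p ≠ q` be any primes and `C` a class of groups closed
under isomorphisms and finite powers. The following are equivalent.
(a) For all `p`-blocks `B` of finite groups with defect groups in `C`, with Brauer correspondent `b`,
there is a bijection `Irr₀(B) → Irr₀(b)` which commutes with all elements of `H_B` which act on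
`Irr₀(B)` and `Irr₀(b)` with order prime to `q`.
(b) For all `p`-blocks `B` of finite groups with defect groups in `C` and all subgroups `Δ ≤ H_B`
which act on `Irr₀(B)` and `Irr₀(b)` as groups of order prime to `q`, the numbers of `Δ`-fixed
characters in `Irr₀(B)` and in `Irr₀(b)` are congruent modulo `q`. -/
theorem result (p : ℕ) [Fact p.Prime] (O : ValuationSubring ℂ) (hpO : (p : ℂ) ∈ O.nonunits)
    (q : ℕ) (hq : q.Prime) (hqp : q ≠ p) (C : (D : Type) → Group D → Prop) (hC : PowClosed C) :
    (∀ X : Dat, X.IsBrauer p O → C X.D inferInstance →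
      EquivBij (HQ p q X) (X.ht0 p) (X.ht0' p)) ↔
    ∀ X : Dat, X.IsBrauer p O → C X.D inferInstance → ∀ Δ : Subgroup (ℂ ≃+* ℂ),
      (∀ δ ∈ Δ, δ ∈ HG p X.G ∧ gal δ X.B = X.B) →
      PrimeTo q (Δ : Set (ℂ ≃+* ℂ)) (X.ht0 p) → PrimeTo q (Δ : Set (ℂ ≃+* ℂ)) (X.ht0' p) →
      Nat.card (Fx (Δ : Set (ℂ ≃+* ℂ)) (X.ht0 p)) ≡
        Nat.card (Fx (Δ : Set (ℂ ≃+* ℂ)) (X.ht0' p)) [MOD q] :=
  have : Fact q.Prime := ⟨hq⟩
  Pool.Agent.K6.H86.AQ.mainA hpO hqp hC

end Pool.Agent.Results.MP_7f1e7e_al.PrimeToQPart
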