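import Pool.Agent.K6.H86.AmnQI

/-!
# Congruences modulo small primes decide the Alperin–McKay–Navarro conjecture

`O` is a valuation subring of `ℂ` whose maximal ideal contains the prime `p` (`p = 2` is allowed); it
defines the `p`-blocks of finite groups.

Proof. Let `B` be a block of `G` with defect group `D ≠ 1` and Brauer correspondent `b`, and let
`K ≤ H` be a group of automorphisms fixing `B` which acts on `Irr₀(B)` and `Irr₀(b)` with order prime
to the prime `q ≠ p`. The characters of `G ≀ C_q` above products of characters in `B` form a block
`B₁` with defect group `D^q` (their central characters vanish outside of `G^q` modulo the maximal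
ideal: if the character extends `χ ⊗ ⋯ ⊗ χ`, then the value at `(g, s)`, `s ≠ 0`, is a natural number
times `(|G|/χ(1))^{q-1} ω_χ(h)` times a root of unity, where `h` is the product of the `g_i` along
the cycle), and its Brauer correspondent is obtained from `b` in the same way. The tuples which are
not constant give the induced characters, and a `K`-fixed one comes from a tuple of `K`-fixed
characters; a constant tuple has `q` extensions, the canonical one (afforded by the tensor power of
a matrix representation; its value at `(g, s)` is `χ(h)`) times the characters of `C_q`. So the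
numbers `x`, `x₁` of `K`-fixed characters of height zero in `B` and `B₁` satisfy
`q x₁ = x^q - x + q c x`, where `c` is the number of `K`-fixed characters of `C_q`. If the numbers
for `B` and `b` are congruent modulo `q^a`, and also those for `B₁` and `b₁`, then those for `B` and
`b` are congruent modulo `q^{a+1}`. Congruences modulo `q` for the iterated wreath products
therefore give equality. The smallest possible prime `q` is the same for `B` and `B₁`, since the
canonical extension embeds `Irr₀(B)` into `Irr₀(B₁)`, and `B₁` is Galois-stable if `B` is. Groups of
automorphisms of `p`-power index with cyclic quotient are lifted to such groups for the wreath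
products. Now the starting result `GaloisStableCyclic` gives the conjecture. In a Galois-stable
block the number of `L`-fixed characters of height zero with a number of Galois conjugates divisible
by `q` is divisible by `q`.
-/

set_option autoImplicit false

namespace Pool.Agent.Results.MP_7f1e7e_al.SmallPrimeCongruences

open Pool.Agent.Q259.BW Pool.Agent.Q288.MB Pool.Agent.N19.RB

/-- The automorphisms in `S` act on `A` with order prime to `q`: for all `σ ∈ S` there is a number
`m` prime to `q` such that `σ ^ m` fixes all characters in `A`. -/
def PrimeTo (q : ℕ) (S : Set (ℂ ≃+* ℂ)) {H : Type} (A : Set (H → ℂ)) : Prop :=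
  ∀ σ ∈ S, ∃ m : ℕ, ¬ q ∣ m ∧ ∀ χ ∈ A, ∀ g, (σ ^ m) (χ g) = χ g

/-- The primes `q ≠ p` such that `S` acts on `Irr₀(B)` and on `Irr₀(b)` with order prime to `q`. -/
def Primes (p : ℕ) (X : Dat) (S : Set (ℂ ≃+* ℂ)) : Set ℕ :=
  {q | q.Prime ∧ q ≠ p ∧ PrimeTo q S (X.ht0 p) ∧ PrimeTo q S (X.ht0' p)}

/-- **Small primes.** Let `p` be any prime and `C` a class of groups closed under isomorphisms,
finite powers and direct products with elementary abelian `p`-groups. The Alperin–McKay–Navarro
conjecture holds for all `p`-blocks with defect groups in `C` if and only if the following holds for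
those of them which are equal to all their Galois conjugates and all `L ≤ H` such that `H / L` is a
`p`-group, cyclic if `p` is odd: if `q` is the smallest prime different from `p` such that `L` acts
on `Irr₀(B)` and `Irr₀(b)` as a group of order prime to `q`, then the numbers of `L`-fixed
characters in `Irr₀(B)` and in `Irr₀(b)` whose number of Galois conjugates is prime to `q` are
congruent modulo `q`. -/
theorem result (p : ℕ) [Fact p.Prime] (O : ValuationSubring ℂ) (hpO : (p : ℂ) ∈ O.nonunits)
    (C : (D : Type) → Group D → Prop) (hC : ElClosed p C) :
    (∀ X : Dat, X.IsBrauer p O → C X.D inferInstance → AMN p X) ↔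
    ∀ X : Dat, X.IsBrauer p O → C X.D inferInstance → (∀ σ : ℂ ≃+* ℂ, gal σ X.B = X.B) →
      ∀ L : Subgroup (ℂ ≃+* ℂ), PIndex p X.G L →
        ∀ q : ℕ, IsLeast (Primes p X (L : Set (ℂ ≃+* ℂ))) q →
        Nat.card {χ // χ ∈ Fx (L : Set (ℂ ≃+* ℂ)) (X.ht0 p) ∧ ¬ q ∣ numCh χ} ≡
          Nat.card {χ // χ ∈ Fx (L : Set (ℂ ≃+* ℂ)) (X.ht0' p) ∧ ¬ q ∣ numCh χ} [MOD q] :=
  Pool.Agent.K6.H86.AQ.mainB' hpO hC

end Pool.Agent.Results.MP_7f1e7e_al.SmallPrimeCongruences
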