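import Pool.Agent.K6.H86.AmnQJ

/-!
# The Alperin–McKay–Navarro conjecture is equivalent to its asymptotic form

`O` is a valuation subring of `ℂ` whose maximal ideal contains the prime `p` (`p = 2` is allowed); it
defines the `p`-blocks of finite groups.

Proof. Let `B` be a Galois-stable block of `G` with defect group `D ≠ 1` and Brauer correspondent `b`,
and let `L ≤ H` be such that `H / L` is a `p`-group (cyclic if `p` is odd). The block of `G^n` given by
`B` has defect group `D^n`, it is Galois-stable, and its Brauer correspondent is given by `b`. The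
automorphisms in the group `H` of `G^n` which act on the `|G|`-th roots of unity as elements of `L`
form a group with the same property, and the numbers of height zero characters fixed by it are the
`n`-th powers of the numbers for `B`, `b` and `L`. So if `x^n ≤ |G^n|^ε y^n` and `y^n ≤ |G^n|^ε x^n`
for large `n`, for every `ε > 0`, then `x = y`. Now the starting result `GaloisStableCyclic` gives
the conjecture.
-/

set_option autoImplicit false

namespace Pool.Agent.Results.MP_7f1e7e_al.UpToSmallPowers

open Pool.Agent.Q259.BW Pool.Agent.Q288.MB Pool.Agent.N19.RB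

/-- **The asymptotic form.** Let `p` be any prime and `C` a class of groups closed under isomorphisms,
finite powers and direct products with elementary abelian `p`-groups. The Alperin–McKay–Navarro
conjecture holds for all `p`-blocks with defect groups in `C` if and only if for every `ε > 0` there
is `N` such that for those of them which are equal to all their Galois conjugates and have a defect
group of order at least `N`, and for all `L ≤ H` such that `H / L` is a `p`-group, cyclic if `p` is
odd, the numbers `x` and `y` of `L`-fixed characters in `Irr₀(B)` and in `Irr₀(b)` satisfy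
`x ≤ |G|^ε y` and `y ≤ |G|^ε x`. -/
theorem result (p : ℕ) [Fact p.Prime] (O : ValuationSubring ℂ) (hpO : (p : ℂ) ∈ O.nonunits)
    (C : (D : Type) → Group D → Prop) (hC : ElClosed p C) :
    (∀ X : Dat, X.IsBrauer p O → C X.D inferInstance → AMN p X) ↔
    ∀ ε : ℝ, 0 < ε → ∃ N : ℕ, ∀ X : Dat, X.IsBrauer p O → C X.D inferInstance →
      (∀ σ : ℂ ≃+* ℂ, gal σ X.B = X.B) → N ≤ Nat.card X.D →
      ∀ L : Subgroup (ℂ ≃+* ℂ), PIndex p X.G L →
      (Nat.card (Fx (L : Set (ℂ ≃+* ℂ)) (X.ht0 p)) : ℝ) ≤
        (Nat.card X.G : ℝ) ^ ε * Nat.card (Fx (L : Set (ℂ ≃+* ℂ)) (X.ht0' p)) ∧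
      (Nat.card (Fx (L : Set (ℂ ≃+* ℂ)) (X.ht0' p)) : ℝ) ≤
        (Nat.card X.G : ℝ) ^ ε * Nat.card (Fx (L : Set (ℂ ≃+* ℂ)) (X.ht0 p)) :=
  Pool.Agent.K6.H86.AQ.mainC hpO hC

end Pool.Agent.Results.MP_7f1e7e_al.UpToSmallPowers
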